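import Pool.Agent.helper44.EX.Spec

/-!
# Project ex: module LYU: points of the Julia set which stay away from the critical orbit
-/

set_option autoImplicit false

open Complex Metric Set Filter Topology MeasureTheory Pool.Agent.helper98.ILF

noncomputable section

namespace EX

theorem LYU_core {n : ℕ} (hn : 2 ≤ n) (c : ℂ) {r : ℝ} (hr : 0 < r) :
    volume {z | z ∈ frontier (filled n c) ∧ ∀ k j : ℕ,
      3 * r ≤ ‖(fun z : ℂ => z ^ n + c)^[k] z - (fun z : ℂ => z ^ n + c)^[j] c‖} = 0 := by
  set f : ℂ → ℂ := fun z => z ^ n + c with hfdef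
  set K := filled n c with hK
  set R := 2 + ‖c‖ with hR
  have hc := norm_nonneg c
  have hlift : LiftMap f c n (((n : ℝ) - 1) / n) := liftMap_pow (by omega) c
  set S : Set ℂ := {z | z ∈ frontier K ∧ ∀ k j : ℕ, 3 * r ≤ ‖f^[k] z - f^[j] c‖} with hS
  have hSF : S ⊆ frontier K := fun z hz => hz.1
  have hSK : S ⊆ K := hSF.trans (isClosed_filled n c).frontier_subset
  have hScl : IsClosed S := by
    have hS' : S = frontier K ∩ ⋂ k : ℕ, ⋂ j : ℕ, {z | 3 * r ≤ ‖f^[k] z - f^[j] c‖} := by
      ext z
      simp only [hS, mem_ofPred_eq, mem_inter_iff, mem_iInter]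
    rw [hS']
    refine isClosed_frontier.inter (isClosed_iInter fun k => isClosed_iInter fun j => ?_)
    have hcont : Continuous f := by rw [hfdef]; fun_prop
    exact isClosed_le continuous_const ((hcont.iterate k).sub continuous_const).norm
  have hScomp : IsCompact S := (isCompact_filled n c).of_isClosed_subset hScl hSK
  have hfS : ∀ z ∈ S, f z ∈ S := by
    intro z hz
    refine ⟨?_, fun k j => ?_⟩
    · have := preimage_frontier_filled hn c
      rw [← hK] at this
      have h2 : z ∈ f ⁻¹' frontier K := by rw [this]; exact hz.1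
      exact h2
    · rw [← Function.iterate_succ_apply]
      exact hz.2 (k + 1) j
  have hd : ∀ z ∈ S, ∀ j, 3 * r ≤ ‖z - f^[j] c‖ := fun z hz j => hz.2 0 j
  have hSR : ∀ z ∈ S, ∀ k, ‖f^[k] z‖ ≤ R := fun z hz k => hSK hz k
  set M := R + 2 * r + 1 with hM
  have hhalf : ∀ k ≥ 1, ∀ w ∈ S, ∀ u, f^[k] u ∈ ball w (2 * r) → -M < u.re := by
    intro k _ w hw u hu
    have h1 : ‖f^[k] u‖ ≤ R + 2 * r := by
      have h2 := hSR w hw 0
      simp only [Function.iterate_zero, id] at h2
      have h3 : ‖f^[k] u - w‖ < 2 * r := by rw [← dist_eq_norm]; exact hu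
      have h4 := norm_add_le (f^[k] u - w) w
      rw [sub_add_cancel] at h4
      linarith
    have h2 : ‖u‖ ≤ R + 2 * r := by
      by_contra hlt
      rw [not_le] at hlt
      have h3 : 2 + ‖c‖ ≤ ‖u‖ := by linarith
      have := le_iterate_of_large hn h3 k
      linarith
    have h3 := Complex.abs_re_le_norm u
    have h4 := neg_abs_le u.re
    linarith
  have hesc : ∀ η > 0, ∃ k₀ : ℕ, ∀ k ≥ k₀, ∀ z ∈ S, ∃ x ∈ ball z (η / (z.re + M)),
      f^[k] x ∉ ball (f^[k] z) r := by
    intro η hη
    set η' := η / (R + M) with hη'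
    have hη'0 : 0 < η' := by positivity
    have hx : ∀ z ∈ S, ∃ x ∈ ball z (η' / 2), x ∉ K := by
      intro z hz
      have h1 : z ∈ closure Kᶜ := by
        have hz' := hSF hz
        rw [frontier_eq_closure_inter_closure] at hz'
        exact hz'.2
      obtain ⟨x, hx1, hx2⟩ := Metric.mem_closure_iff.1 h1 (η' / 2) (by positivity)
      exact ⟨x, by rwa [mem_ball, dist_comm], hx1⟩
    choose! x hxb hxK using hx
    have hk : ∀ z ∈ S, ∃ k₀ : ℕ, ∀ k ≥ k₀, R + r < ‖f^[k] (x z)‖ := fun z hz =>
      exists_of_notMem_filled hn (hxK z hz) (R + r)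
    choose! κ hκ using hk
    obtain ⟨t, ht, hcov⟩ := hScomp.elim_nhds_subcover (fun z => ball z (η' / 2))
      (fun z _ => ball_mem_nhds z (by positivity))
    refine ⟨t.sup κ, fun k hk z hz => ?_⟩
    have hz' := hcov hz
    simp only [mem_iUnion] at hz'
    obtain ⟨z', hzt, hzz⟩ := hz'
    refine ⟨x z', ?_, ?_⟩
    · have h1 := hxb z' (ht z' hzt)
      have h2 : dist (x z') z < η' := by
        calc dist (x z') z ≤ dist (x z') z' + dist z' z := dist_triangle _ _ _
          _ < η' / 2 + η' / 2 := add_lt_add h1 (by rwa [mem_ball, dist_comm] at hzz)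
          _ = η' := by ring
      rw [mem_ball]
      refine h2.trans_le ?_
      rw [hη']
      have h3 := hSR z hz 0
      simp only [Function.iterate_zero, id] at h3
      have h4 := Complex.abs_re_le_norm z
      have h5 := neg_abs_le z.re
      have h6 := le_abs_self z.re
      have h7 : 0 < z.re + M := by linarith
      gcongr
      linarith
    · intro hmem
      have h1 := hκ z' (ht z' hzt) k ((Finset.le_sup hzt).trans hk)
      have h2 := hSR z hz k
      have h3 : ‖f^[k] (x z') - f^[k] z‖ < r := by rw [← dist_eq_norm]; exact hmem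
      have h4 := norm_add_le (f^[k] (x z') - f^[k] z) (f^[k] z)
      rw [sub_add_cancel] at h4
      linarith
  obtain ⟨k₀, hk₀⟩ := expansion hlift hfS hr hd hhalf hesc 2
  obtain ⟨C, hC, θ, hθ0, hθ1, hexp⟩ := exp_growth hlift hfS hr hd (le_max_right k₀ 1)
    (hk₀ (max k₀ 1) (le_max_left _ _))
  exact volume_eq_zero hlift hScl.measurableSet hfS hr hd hC hθ0 hθ1 hexp
    (density_of_compact hScomp (subset_eq_empty (interior_mono hSF) (interior_frontier (isClosed_filled n c))))

theorem LYU : LYU_stmt := by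
  intro n c r hn hr
  exact LYU_core hn c hr

end EX
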